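import Pool.Agent.H52.XR2.S2

/-!
# Project XR2, row FST: blunt tips of the sections parallel to `u`
-/

set_option autoImplicit false

open MeasureTheory Set Filter Topology Metric
open scoped Real ENNReal RealInnerProductSpace

namespace Pool.XR2

open Pool.Agent.H45.XR

/-! ### blunt points -/

/-- The set contains the points above `B |y| ^ (1 + α)` near `p`. -/
def Blt (σ : ℝ) (S : Set ℂ) (p : ℂ) (B α δ : ℝ) : Prop :=
  ∀ y t : ℝ, B * |y| ^ (1 + α) ≤ t → t ≤ δ →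
    p + y * e 0 + (σ * t : ℝ) * (Complex.I * e 0) ∈ S

theorem Blt.mono {σ : ℝ} {S : Set ℂ} {p : ℂ} {B α δ B' α' δ' : ℝ} (h : Blt σ S p B α δ)
    (hB0 : 0 < B) (hB : B ≤ B') (hα0 : 0 < α') (hα : α' ≤ α) (hδ : δ' ≤ δ) (hδB : δ' ≤ B') :
    Blt σ S p B' α' δ' := by
  intro y t h1 h2
  have hB' : 0 < B' := hB0.trans_le hB
  have hy0 : 0 ≤ |y| := abs_nonneg y
  have h3 : |y| ≤ 1 := by
    by_contra hcon
    push Not at hcon
    have h4 : 1 < |y| ^ (1 + α') := Real.one_lt_rpow hcon (by linarith)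
    have h5 : B' * 1 < B' * |y| ^ (1 + α') := mul_lt_mul_of_pos_left h4 hB'
    linarith
  refine h y t (le_trans ?_ h1) (h2.trans hδ)
  have h4 : |y| ^ (1 + α) ≤ |y| ^ (1 + α') := by
    rcases hy0.eq_or_lt with h0 | h0
    · rw [← h0, Real.zero_rpow (by linarith), Real.zero_rpow (by linarith)]
    · exact Real.rpow_le_rpow_of_exponent_ge h0 h3 (by linarith)
  exact mul_le_mul hB h4 (Real.rpow_nonneg hy0 _) hB'.le

theorem Blt.seg {σ : ℝ} {S : Set ℂ} {p₁ p₂ p : ℂ} {B α δ : ℝ} (hS : Convex ℝ S)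
    (h₁ : Blt σ S p₁ B α δ) (h₂ : Blt σ S p₂ B α δ) (hp : p ∈ segment ℝ p₁ p₂) :
    Blt σ S p B α δ := by
  obtain ⟨a, b, ha, hb, hab, rfl⟩ := hp
  intro y t h3 h4
  have h5 := hS (h₁ y t h3 h4) (h₂ y t h3 h4) ha hb hab
  have e1 : a • p₁ + b • p₂ + y * e 0 + (σ * t : ℝ) * (Complex.I * e 0) =
      a • (p₁ + y * e 0 + (σ * t : ℝ) * (Complex.I * e 0)) +
        b • (p₂ + y * e 0 + (σ * t : ℝ) * (Complex.I * e 0)) := by
    have h6 : (a : ℂ) + (b : ℂ) = 1 := by exact_mod_cast hab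
    simp only [Complex.real_smul]
    linear_combination (-(y * e 0 + (σ * t : ℝ) * (Complex.I * e 0) : ℂ)) * h6
  rw [e1]
  exact h5

/-- The tips of one side: uniform constants. -/
theorem blt_side {S : Set ℂ} (hS : Convex ℝ S) (hc : IsCompact S) (hne : S.Nonempty) (σ : ℝ)
    (h : ∀ p ∈ S, (∀ z ∈ S, σ * tc 0 p ≤ σ * tc 0 z) →
      ∃ B > (0 : ℝ), ∃ α > (0 : ℝ), ∃ δ > (0 : ℝ), Blt σ S p B α δ) (hσ : σ = 1 ∨ σ = -1) :
    ∃ B > (0 : ℝ), ∃ α > (0 : ℝ), ∃ δ > (0 : ℝ), ∀ p ∈ S, (∀ z ∈ S, σ * tc 0 p ≤ σ * tc 0 z) →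
      Blt σ S p B α δ := by
  have hct : Continuous (fun z : ℂ => σ * tc 0 z) := continuous_const.mul (continuous_tc 0)
  obtain ⟨p₀, hp₀, hm₀⟩ := hc.exists_isMinOn hne hct.continuousOn
  obtain ⟨T, hT⟩ : ∃ T : Set ℂ, T = {p | p ∈ S ∧ σ * tc 0 p ≤ σ * tc 0 p₀} := ⟨_, rfl⟩
  have hTc : IsCompact T := by
    rw [hT]
    exact hc.inter_right (isClosed_le hct continuous_const)
  have hTne : T.Nonempty := ⟨p₀, by rw [hT]; exact ⟨hp₀, le_rfl⟩⟩
  have hTm : ∀ p, p ∈ T ↔ p ∈ S ∧ ∀ z ∈ S, σ * tc 0 p ≤ σ * tc 0 z := by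
    intro p
    rw [hT]
    exact ⟨fun h1 => ⟨h1.1, fun z hz => h1.2.trans (hm₀ hz)⟩, fun h1 => ⟨h1.1, h1.2 p₀ hp₀⟩⟩
  obtain ⟨p₁, hp₁, hm₁⟩ := hTc.exists_isMinOn hTne Complex.continuous_re.continuousOn
  obtain ⟨p₂, hp₂, hm₂⟩ := hTc.exists_isMaxOn hTne Complex.continuous_re.continuousOn
  obtain ⟨B₁, hB₁, α₁, hα₁, δ₁, hδ₁, h₁⟩ := h p₁ ((hTm p₁).1 hp₁).1 ((hTm p₁).1 hp₁).2
  obtain ⟨B₂, hB₂, α₂, hα₂, δ₂, hδ₂, h₂⟩ := h p₂ ((hTm p₂).1 hp₂).1 ((hTm p₂).1 hp₂).2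
  have hB : 0 < max B₁ B₂ := lt_max_of_lt_left hB₁
  refine ⟨max B₁ B₂, hB, min α₁ α₂, lt_min hα₁ hα₂, min (min δ₁ δ₂) (max B₁ B₂),
    lt_min (lt_min hδ₁ hδ₂) hB, fun p hp hpm => ?_⟩
  have k₁ := h₁.mono hB₁ (le_max_left B₁ B₂) (lt_min hα₁ hα₂) (min_le_left α₁ α₂)
    ((min_le_left _ _).trans (min_le_left δ₁ δ₂)) (min_le_right (min δ₁ δ₂) _)
  have k₂ := h₂.mono hB₂ (le_max_right B₁ B₂) (lt_min hα₁ hα₂) (min_le_right α₁ α₂)
    ((min_le_left _ _).trans (min_le_right δ₁ δ₂)) (min_le_right (min δ₁ δ₂) _)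
  refine Blt.seg hS k₁ k₂ ?_
  have hpT : p ∈ T := (hTm p).2 ⟨hp, hpm⟩
  have him : ∀ q ∈ T, q.im = p.im := by
    intro q hq
    have h3 := hpm q ((hTm q).1 hq).1
    have h4 := ((hTm q).1 hq).2 p hp
    have h5 : σ * tc 0 q = σ * tc 0 p := le_antisymm h4 h3
    have h6 : ∀ z : ℂ, tc 0 z = z.im := fun z => by simp [tc]
    rw [h6, h6] at h5
    rcases hσ with rfl | rfl <;> linarith
  have hre1 : p₁.re ≤ p.re := hm₁ hpT
  have hre2 : p.re ≤ p₂.re := hm₂ hpT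
  rcases (hre1.trans hre2).eq_or_lt with h3 | h3
  · have h4 : p = p₁ := by
      apply Complex.ext
      · linarith
      · exact (him p₁ hp₁).symm
    rw [h4]
    exact left_mem_segment ℝ p₁ p₂
  · have h4 : 0 < p₂.re - p₁.re := by linarith
    refine ⟨(p₂.re - p.re) / (p₂.re - p₁.re), (p.re - p₁.re) / (p₂.re - p₁.re),
      div_nonneg (by linarith) h4.le, div_nonneg (by linarith) h4.le, ?_, ?_⟩
    · rw [← add_div, div_eq_one_iff_eq h4.ne']
      ring
    · apply Complex.ext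
      · simp only [Complex.add_re, Complex.smul_re, smul_eq_mul]
        field_simp
        ring
      · simp only [Complex.add_im, Complex.smul_im, smul_eq_mul]
        rw [him p₁ hp₁, him p₂ hp₂, ← add_mul, ← add_div]
        have h5 : p₂.re - p.re + (p.re - p₁.re) = p₂.re - p₁.re := by ring
        rw [h5, div_self h4.ne', one_mul]

/-! ### translations -/

theorem convexBody_tr {K : Set E3} (hK : IsConvexBody K) (x : E3) :
    IsConvexBody ((fun q => x + q) ⁻¹' K) := by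
  obtain ⟨h1, h2, h3⟩ := hK
  refine ⟨h1.translate_preimage_right x, (Homeomorph.addLeft x).isCompact_preimage.2 h2, ?_⟩
  have h4 : interior ((fun q => x + q) ⁻¹' K) = (fun q => x + q) ⁻¹' interior K :=
    ((Homeomorph.addLeft x).preimage_interior K).symm
  rw [h4]
  obtain ⟨y, hy⟩ := h3
  exact ⟨y - x, by
    show x + (y - x) ∈ interior K
    rw [add_sub_cancel]
    exact hy⟩

theorem c1_pre {K : Set E3} (hK : C1 K) (b : OrthonormalBasis (Fin 3) ℝ E3) (x : E3) :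
    C1 (coordE b ⁻¹' ((fun q => x + q) ⁻¹' K)) := by
  intro p hp f g hf hg hfm hgm
  have key : ∀ f : (ℂ × ℝ) →L[ℝ] ℝ, f ≠ 0 →
      (∀ q ∈ coordE b ⁻¹' ((fun q => x + q) ⁻¹' K), f q ≤ f p) →
      f.comp ((coordE b).symm : E3 →L[ℝ] ℂ × ℝ) ≠ 0 ∧ ∀ q ∈ K,
        f.comp ((coordE b).symm : E3 →L[ℝ] ℂ × ℝ) q ≤
          f.comp ((coordE b).symm : E3 →L[ℝ] ℂ × ℝ) (x + coordE b p) := by
    intro f hf hfm
    refine ⟨fun h0 => hf ?_, fun q hq => ?_⟩
    · ext v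
      · have := congrArg (fun F : E3 →L[ℝ] ℝ => F (coordE b (v, 0))) h0
        simpa [-coordE_apply] using this
      · have := congrArg (fun F : E3 →L[ℝ] ℝ => F (coordE b (0, 1))) h0
        simpa [-coordE_apply] using this
    · have h1 := hfm ((coordE b).symm (q - x)) (by
        show x + coordE b ((coordE b).symm (q - x)) ∈ K
        rw [ContinuousLinearEquiv.apply_symm_apply, add_sub_cancel]
        exact hq)
      show f ((coordE b).symm q) ≤ f ((coordE b).symm (x + coordE b p))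
      rw [map_sub, map_sub] at h1
      rw [map_add, map_add, ContinuousLinearEquiv.symm_apply_apply]
      linarith
  obtain ⟨f1, f2⟩ := key f hf hfm
  obtain ⟨g1, g2⟩ := key g hg hgm
  obtain ⟨c, hc, hcc⟩ := hK (x + coordE b p) hp _ _ f1 g1 f2 g2
  refine ⟨c, hc, ?_⟩
  have h3 : ∀ v, g v = c * f v := by
    intro v
    have := congrArg (fun F : E3 →L[ℝ] ℝ => F (coordE b v)) hcc
    simpa [-coordE_apply] using this
  ext v
  · have := h3 (v, 0)
    simpa using this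
  · have := h3 (0, 1)
    simpa using this

/-- The sections of a translate. -/
theorem sg_tr (K : Set E3) (b : OrthonormalBasis (Fin 3) ℝ E3) (x : E3) (g : ℂ) :
    Sg g (coordE b ⁻¹' ((fun q => x + q) ⁻¹' K)) =
      (fun P : ℂ × ℝ => (((coordE b).symm x).1, ((coordE b).symm x).2 -
        (g.re * ((coordE b).symm x).1.re + g.im * ((coordE b).symm x).1.im)) + P) ⁻¹'
        Sg g (coordE b ⁻¹' K) := by
  ext P
  show x + coordE b (P.1, P.2 + (g.re * P.1.re + g.im * P.1.im)) ∈ K ↔ coordE b _ ∈ K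
  obtain ⟨v, hv⟩ : ∃ v, v = (coordE b).symm x := ⟨_, rfl⟩
  have hx : x = coordE b v := by rw [hv, ContinuousLinearEquiv.apply_symm_apply]
  rw [← hv]
  conv_lhs => rw [hx, ← map_add]
  have e1 : v + (P.1, P.2 + (g.re * P.1.re + g.im * P.1.im)) =
      (((v.1, v.2 - (g.re * v.1.re + g.im * v.1.im)) + P : ℂ × ℝ).1,
        ((v.1, v.2 - (g.re * v.1.re + g.im * v.1.im)) + P : ℂ × ℝ).2 +
          (g.re * ((v.1, v.2 - (g.re * v.1.re + g.im * v.1.im)) + P : ℂ × ℝ).1.re +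
            g.im * ((v.1, v.2 - (g.re * v.1.re + g.im * v.1.im)) + P : ℂ × ℝ).1.im)) := by
    ext
    · simp
    · simp only [Prod.snd_add, Prod.fst_add, Complex.add_re, Complex.add_im]
      ring
  rw [e1]

theorem round_tr {c : ℝ} {S : Set ℂ} (h : Round c S) (v : ℂ) : Round c {z | v + z ∈ S} := by
  intro p hp q hq φ
  obtain ⟨p', hp', q', hq', h1⟩ := h _ hp _ hq φ
  refine ⟨p' - v, ?_, q' - v, ?_, ?_⟩
  · show v + (p' - v) ∈ S
    rwa [add_sub_cancel]
  · show v + (q' - v) ∈ S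
    rwa [add_sub_cancel]
  · rw [tc_sub, tc_sub]
    have e1 : v + p - (v + q) = p - q := by ring
    rw [e1] at h1
    refine h1.trans (le_of_eq ?_)
    ring

theorem round_pre {K : Set E3} {b : OrthonormalBasis (Fin 3) ℝ E3} (x : E3)
    (h : ∃ c > 0, ∃ η > 0, ∀ g : ℂ, ‖g‖ < η → ∀ h ∈ Hts (Sg g (coordE b ⁻¹' K)),
      Round c (sec (Sg g (coordE b ⁻¹' K)) h)) :
    ∃ c > 0, ∃ η > 0, ∀ g : ℂ, ‖g‖ < η →
      ∀ h ∈ Hts (Sg g (coordE b ⁻¹' ((fun q => x + q) ⁻¹' K))),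
      Round c (sec (Sg g (coordE b ⁻¹' ((fun q => x + q) ⁻¹' K))) h) := by
  obtain ⟨c, hc, η, hη, hr⟩ := h
  refine ⟨c, hc, η, hη, fun g hg h hh => ?_⟩
  rw [sg_tr] at hh ⊢
  obtain ⟨v, hv⟩ : ∃ v : ℂ × ℝ, v = (((coordE b).symm x).1, ((coordE b).symm x).2 -
    (g.re * ((coordE b).symm x).1.re + g.im * ((coordE b).symm x).1.im)) := ⟨_, rfl⟩
  rw [← hv] at hh ⊢
  obtain ⟨z, hz⟩ := hh
  have h4 : interior ((fun P => v + P) ⁻¹' Sg g (coordE b ⁻¹' K)) =
      (fun P => v + P) ⁻¹' interior (Sg g (coordE b ⁻¹' K)) :=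
    ((Homeomorph.addLeft v).preimage_interior _).symm
  rw [h4] at hz
  exact round_tr (hr g hg (v.2 + h) ⟨v.1 + z, hz⟩) v.1

/-! ### the numbers -/

theorem blt_num {B α δ ν : ℝ} (hB : 0 < B) (hα : 0 < α) (hδ : 0 < δ) (hν : 0 < ν) (hν1 : ν ≤ 1) :
    ∃ B' > (0 : ℝ), ∃ δ' > (0 : ℝ), ∀ y t n : ℝ, B' * |y| ^ (1 + α) ≤ t → t ≤ δ' → 0 ≤ n →
      n ≤ |y| + t → n ≤ δ ∧ B * n ^ (1 + α) ≤ ν * t ∧ ν * t ≤ δ ∧ 0 ≤ t := by
  obtain ⟨E, hE⟩ : ∃ E : ℝ, E = B * 2 ^ (1 + α) / ν := ⟨_, rfl⟩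
  have hE0 : 0 < E := by rw [hE]; positivity
  have hEν : B * 2 ^ (1 + α) = E * ν := by rw [hE]; field_simp
  refine ⟨max 1 E, lt_max_of_lt_left one_pos,
    min (min (δ / 2) ((δ / 2) ^ (1 + α))) ((1 / E) ^ (1 / α)),
    lt_min (lt_min (by positivity) (by positivity)) (by positivity), ?_⟩
  intro y t n h1 h2 hn0 hn
  have hy0 : 0 ≤ |y| := abs_nonneg y
  have h1α : 0 < 1 + α := by linarith
  have hyα : 0 ≤ |y| ^ (1 + α) := Real.rpow_nonneg hy0 _
  have ht0 : 0 ≤ t := le_trans (by positivity) h1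
  have hd1 : t ≤ δ / 2 := h2.trans ((min_le_left _ _).trans (min_le_left _ _))
  have hd2 : t ≤ (δ / 2) ^ (1 + α) := h2.trans ((min_le_left _ _).trans (min_le_right _ _))
  have hd3 : t ≤ (1 / E) ^ (1 / α) := h2.trans (min_le_right _ _)
  have hy1 : |y| ^ (1 + α) ≤ t := by
    refine le_trans ?_ h1
    have : 1 * |y| ^ (1 + α) ≤ max 1 E * |y| ^ (1 + α) :=
      mul_le_mul_of_nonneg_right (le_max_left _ _) hyα
    linarith
  have hyd : |y| ≤ δ / 2 := by
    by_contra hcon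
    push Not at hcon
    have := Real.rpow_lt_rpow (by positivity) hcon h1α
    linarith
  have htα : E * t ^ α ≤ 1 := by
    have h3 : t ^ α ≤ ((1 / E) ^ (1 / α)) ^ α := Real.rpow_le_rpow ht0 hd3 hα.le
    rw [← Real.rpow_mul (by positivity), one_div_mul_cancel hα.ne', Real.rpow_one] at h3
    calc E * t ^ α ≤ E * (1 / E) := mul_le_mul_of_nonneg_left h3 hE0.le
      _ = 1 := by field_simp
  have hm0 : 0 ≤ max |y| t := le_max_of_le_left hy0
  have hn2 : n ≤ 2 * max |y| t := by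
    have h3 := le_max_left |y| t
    have h4 := le_max_right |y| t
    linarith
  have hn3 : n ^ (1 + α) ≤ 2 ^ (1 + α) * max |y| t ^ (1 + α) := by
    rw [← Real.mul_rpow (by norm_num) hm0]
    exact Real.rpow_le_rpow hn0 hn2 h1α.le
  have hmx : E * max |y| t ^ (1 + α) ≤ t := by
    rcases le_total t |y| with h3 | h3
    · rw [max_eq_left h3]
      refine le_trans (mul_le_mul_of_nonneg_right (le_max_right 1 E) hyα) h1
    · rw [max_eq_right h3]
      rcases ht0.eq_or_lt with h4 | h4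
      · rw [← h4, Real.zero_rpow (by linarith), mul_zero]
      · rw [Real.rpow_add h4, Real.rpow_one]
        calc E * (t * t ^ α) = t * (E * t ^ α) := by ring
          _ ≤ t * 1 := mul_le_mul_of_nonneg_left htα ht0
          _ = t := mul_one t
  refine ⟨by linarith, ?_, ?_, ht0⟩
  · calc B * n ^ (1 + α) ≤ B * (2 ^ (1 + α) * max |y| t ^ (1 + α)) :=
          mul_le_mul_of_nonneg_left hn3 hB.le
      _ = ν * (E * max |y| t ^ (1 + α)) := by
          rw [← mul_assoc, hEν]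
          ring
      _ ≤ ν * t := mul_le_mul_of_nonneg_left hmx hν.le
  · calc ν * t ≤ 1 * t := mul_le_mul_of_nonneg_right hν1 ht0
      _ ≤ δ := by linarith

/-! ### the supporting plane -/

/-- An orthonormal basis with given first and last vectors. -/
theorem exists_basis {u n : E3} (hu : ‖u‖ = 1) (hn : ‖n‖ = 1) (h : ⟪u, n⟫ = 0) :
    ∃ b : OrthonormalBasis (Fin 3) ℝ E3, b 0 = u ∧ b 2 = n := by
  obtain ⟨v, hv⟩ : ∃ v : Fin 3 → E3, v = ![u, 0, n] := ⟨_, rfl⟩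
  have v0 : v 0 = u := by rw [hv]; rfl
  have v2 : v 2 = n := by rw [hv]; rfl
  have hor : Orthonormal ℝ (({0, 2} : Set (Fin 3)).domRestrict v) := by
    rw [orthonormal_iff_ite]
    rintro ⟨i, hi⟩ ⟨j, hj⟩
    simp only [mem_insert_iff, mem_singleton_iff] at hi hj
    have hij : ∀ (i j : Fin 3) (hi : i ∈ ({0, 2} : Set (Fin 3))) (hj : j ∈ ({0, 2} : Set (Fin 3))),
        ⟪({0, 2} : Set (Fin 3)).domRestrict v ⟨i, hi⟩, ({0, 2} : Set (Fin 3)).domRestrict v ⟨j, hj⟩⟫ =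
        ⟪v i, v j⟫ := fun i j hi hj => rfl
    rw [hij]
    rcases hi with rfl | rfl <;> rcases hj with rfl | rfl
    · rw [v0, real_inner_self_eq_norm_sq, hu]; simp
    · rw [v0, v2, h]; simp
    · rw [v0, v2, real_inner_comm, h]; simp
    · rw [v2, real_inner_self_eq_norm_sq, hn]; simp
  obtain ⟨b, hb⟩ := hor.exists_orthonormalBasis_extension_of_card_eq (by simp)
  exact ⟨b, by rw [hb 0 (by simp), v0], by rw [hb 2 (by simp), v2]⟩

/-- **The supporting plane** which contains a line of boundary points. -/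
theorem sup_plane {K : Set E3} (hK : IsConvexBody K) {u x : E3}
    (hl : ∀ s : ℝ, x + s • u ∉ interior K) :
    ∃ n : E3, ‖n‖ = 1 ∧ ⟪u, n⟫ = 0 ∧ (∀ q ∈ K, 0 ≤ ⟪n, q - x⟫) ∧
      ∀ q ∈ interior K, 0 < ⟪n, q - x⟫ := by
  obtain ⟨hc, hcp, hne⟩ := hK
  obtain ⟨L, hL⟩ : ∃ L : Set E3, L = Set.range fun s : ℝ => x + s • u := ⟨_, rfl⟩
  have hLc : Convex ℝ L := by
    rw [hL]
    rintro _ ⟨s, rfl⟩ _ ⟨t, rfl⟩ a b ha hb hab
    refine ⟨a * s + b * t, ?_⟩
    show x + (a * s + b * t) • u = a • (x + s • u) + b • (x + t • u)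
    have : x = (a + b) • x := by rw [hab, one_smul]
    conv_lhs => rw [this]
    simp only [smul_add, add_smul, mul_smul]
    abel
  have hdis : Disjoint (interior K) L := by
    rw [Set.disjoint_left]
    intro q hq hqL
    rw [hL] at hqL
    obtain ⟨s, rfl⟩ := hqL
    exact hl s hq
  obtain ⟨f, c, h1, h2⟩ := geometric_hahn_banach_open hc.interior isOpen_interior hLc hdis
  have h3 : ∀ s : ℝ, c ≤ f x + s * f u := by
    intro s
    have := h2 (x + s • u) (by rw [hL]; exact ⟨s, rfl⟩)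
    rwa [map_add, map_smul, smul_eq_mul] at this
  have hfu : f u = 0 := by
    by_contra hcon
    have := h3 ((c - 1 - f x) / f u)
    rw [div_mul_cancel₀ _ hcon] at this
    linarith
  have hfx : c ≤ f x := by
    have := h3 0
    linarith
  have hKf : ∀ q ∈ K, f q ≤ f x := by
    intro q hq
    have h4 : q ∈ closure (interior K) := by
      rw [hc.closure_interior_eq_closure_of_nonempty_interior hne]
      exact subset_closure hq
    have h5 : closure (interior K) ⊆ {q | f q ≤ f x} :=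
      closure_minimal (fun z hz => ((h1 z hz).trans_le hfx).le)
        (isClosed_le f.continuous continuous_const)
    exact h5 h4
  obtain ⟨v, hv⟩ : ∃ v : E3, v = (InnerProductSpace.toDual ℝ E3).symm f := ⟨_, rfl⟩
  have hfv : ∀ q, f q = ⟪v, q⟫ := fun q => by
    rw [hv, InnerProductSpace.toDual_symm_apply]
  have hv0 : v ≠ 0 := by
    intro h0
    obtain ⟨q, hq⟩ := hne
    have h4 := h1 q hq
    rw [hfv, h0, inner_zero_left] at h4
    rw [hfv, h0, inner_zero_left] at hfx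
    linarith
  have hvn : 0 < ‖v‖ := norm_pos_iff.2 hv0
  have hin : ∀ q, ⟪(-(1 / ‖v‖)) • v, q - x⟫ = (1 / ‖v‖) * (f x - f q) := by
    intro q
    rw [inner_smul_left, inner_sub_right, ← hfv, ← hfv]
    simp only [conj_trivial]
    ring
  refine ⟨(-(1 / ‖v‖)) • v, ?_, ?_, fun q hq => ?_, fun q hq => ?_⟩
  · rw [norm_smul, norm_neg, norm_div, norm_one, norm_norm]
    field_simp
  · rw [inner_smul_right, real_inner_comm, ← hfv, hfu, mul_zero]
  · rw [hin]
    exact mul_nonneg (by positivity) (by linarith [hKf q hq])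
  · rw [hin]
    exact mul_pos (by positivity) (by linarith [h1 q hq])

/-- **One tip.** -/
theorem blt_tip (hHLD : HLDStmt) {K : Set E3} {u : E3} (hK : IsConvexBody K) (h1 : C1 K)
    (hu : ‖u‖ = 1)
    (hr : ∀ b : OrthonormalBasis (Fin 3) ℝ E3, b 0 = u → ∃ c > 0, ∃ η > 0, ∀ g : ℂ, ‖g‖ < η →
      ∀ h ∈ Hts (Sg g (coordE b ⁻¹' K)), Round c (sec (Sg g (coordE b ⁻¹' K)) h))
    {b : OrthonormalBasis (Fin 3) ℝ E3} (hb : b 0 = u) {h : ℝ} (hh : h ∈ Hts (coordE b ⁻¹' K))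
    {σ : ℝ} (hσ : σ = 1 ∨ σ = -1) {p : ℂ} (hp : p ∈ sec (coordE b ⁻¹' K) h)
    (hpm : ∀ z ∈ sec (coordE b ⁻¹' K) h, σ * tc 0 p ≤ σ * tc 0 z) :
    ∃ B > (0 : ℝ), ∃ α > (0 : ℝ), ∃ δ > (0 : ℝ), Blt σ (sec (coordE b ⁻¹' K) h) p B α δ := by
  have hKb := body3_preimage b hK
  have htc : ∀ z : ℂ, tc 0 z = z.im := fun z => by simp [tc]
  have hint : interior (coordE b ⁻¹' K) = coordE b ⁻¹' interior K :=
    ((coordE b).toHomeomorph.preimage_interior K).symm
  obtain ⟨x, hx⟩ : ∃ x, x = coordE b (p, h) := ⟨_, rfl⟩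
  have hxK : x ∈ K := by rw [hx]; exact hp
  have hσσ : σ * σ = 1 := by rcases hσ with rfl | rfl <;> norm_num
  -- the line of the tip
  have hline : ∀ s : ℝ, x + s • u ∉ interior K := by
    intro s hs
    have h2 : (p + s, h) ∈ interior (coordE b ⁻¹' K) := by
      rw [hint]
      show coordE b (p + s, h) ∈ interior K
      have e1 : coordE b (p + s, h) = x + s • u := by
        rw [hx, coordE_apply, coordE_apply, ← hb]
        simp only [coord, Complex.add_re, Complex.add_im, Complex.ofReal_re, Complex.ofReal_im,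
          add_smul, add_zero]
        abel
      rw [e1]
      exact hs
    have h3 : p + s ∈ interior (sec (coordE b ⁻¹' K) h) := by
      rw [interior_sec hKb hh]
      exact h2
    obtain ⟨ε, hε, hball⟩ := Metric.isOpen_iff.1 isOpen_interior _ h3
    have h4 : (p + s) + ((-(σ * (ε / 2)) : ℝ) : ℂ) * Complex.I ∈ sec (coordE b ⁻¹' K) h := by
      refine interior_subset (hball ?_)
      rw [mem_ball, dist_eq_norm, add_sub_cancel_left, norm_mul, Complex.norm_I, mul_one,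
        Complex.norm_real, Real.norm_eq_abs, abs_neg, abs_mul]
      have : |σ| = 1 := by rcases hσ with rfl | rfl <;> simp
      rw [this, one_mul, abs_of_pos (by positivity)]
      linarith
    have h5 := hpm _ h4
    rw [htc, htc] at h5
    simp only [Complex.add_im, Complex.ofReal_im, Complex.mul_im, Complex.ofReal_re, Complex.I_im,
      Complex.I_re, mul_one, mul_zero, add_zero] at h5
    nlinarith
  obtain ⟨n, hn, hun, hn0, hn1⟩ := sup_plane hK hline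
  obtain ⟨b', hb'0, hb'2⟩ := exists_basis hu hn hun
  have hor : ∀ i j : Fin 3, ⟪b i, b j⟫ = if i = j then (1 : ℝ) else 0 :=
    orthonormal_iff_ite.mp b.orthonormal
  -- the coordinates of the normal
  have hKx : IsConvexBody ((fun q => x + q) ⁻¹' K) := convexBody_tr hK x
  obtain ⟨B, hB, α, hα, δ, hδ, hbl⟩ := hHLD (coordE b' ⁻¹' ((fun q => x + q) ⁻¹' K))
    (body3_preimage b' hKx) (c1_pre h1 b' x) (by
      show x + coordE b' 0 ∈ K
      rw [map_zero, add_zero]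
      exact hxK) (fun P hP => by
      have h2 : x + coordE b' P ∈ K := hP
      have h3 := hn0 _ h2
      rw [add_sub_cancel_left, coordE_apply, ← hb'2, (inner_coord b' P).2.2] at h3
      exact h3) (round_pre x (hr b' hb'0))
  -- the normal component of the second vector
  obtain ⟨ν, hν⟩ : ∃ ν : ℝ, ν = σ * ⟪n, b 1⟫ := ⟨_, rfl⟩
  obtain ⟨μ, hμ⟩ : ∃ μ : ℝ, μ = σ * ⟪b' 1, b 1⟫ := ⟨_, rfl⟩
  have hb1 : ‖b 1‖ = 1 := b.norm_eq_one 1
  have hσa : |σ| = 1 := by rcases hσ with rfl | rfl <;> simp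
  have hν1 : ν ≤ 1 := by
    rw [hν]
    refine (le_abs_self _).trans ?_
    rw [abs_mul, hσa, one_mul]
    refine (abs_real_inner_le_norm _ _).trans ?_
    rw [hn, hb1, one_mul]
  have hμ1 : |μ| ≤ 1 := by
    rw [hμ, abs_mul, hσa, one_mul]
    refine (abs_real_inner_le_norm _ _).trans ?_
    rw [b'.norm_eq_one, hb1, one_mul]
  have hν0 : 0 < ν := by
    obtain ⟨z, hz⟩ := hh
    rw [hint] at hz
    have h2 := hn1 _ hz
    have h3 : coordE b (z, h) - x = (z.re - p.re) • u + (z.im - p.im) • b 1 := by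
      rw [hx, coordE_apply, coordE_apply, ← hb]
      simp only [coord, sub_smul]
      abel
    rw [h3, inner_add_right, inner_smul_right, inner_smul_right, real_inner_comm, hun, mul_zero,
      zero_add] at h2
    have h4 := hpm z (interior_subset (s := K) hz)
    rw [htc, htc] at h4
    have h5 : (z.im - p.im) * ⟪n, b 1⟫ = (σ * (z.im - p.im)) * ν := by
      rw [hν]
      have : σ * (z.im - p.im) * (σ * ⟪n, b 1⟫) = (σ * σ) * ((z.im - p.im) * ⟪n, b 1⟫) := by ring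
      rw [this, hσσ, one_mul]
    rw [h5] at h2
    have h6 : 0 ≤ σ * (z.im - p.im) := by
      rw [mul_sub]
      linarith
    by_contra hcon
    push Not at hcon
    have := mul_nonpos_of_nonneg_of_nonpos h6 hcon
    linarith
  obtain ⟨B', hB', δ', hδ', hnum⟩ := blt_num hB hα hδ hν0 hν1
  refine ⟨B', hB', α, hα, δ', hδ', ?_⟩
  intro y t h2 h3
  have ht0 : 0 ≤ t := le_trans (by have := Real.rpow_nonneg (abs_nonneg y) (1 + α); positivity) h2
  obtain ⟨z, hz⟩ : ∃ z : ℂ, z = ⟨y, t * μ⟩ := ⟨_, rfl⟩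
  have hzn : ‖z‖ ≤ |y| + t := by
    refine (Complex.norm_le_abs_re_add_abs_im z).trans ?_
    rw [hz]
    show |y| + |t * μ| ≤ |y| + t
    rw [abs_mul, abs_of_nonneg ht0]
    have : t * |μ| ≤ t * 1 := mul_le_mul_of_nonneg_left hμ1 ht0
    linarith
  obtain ⟨k1, k2, k3, -⟩ := hnum y t ‖z‖ h2 h3 (norm_nonneg z) hzn
  have h4 : x + coordE b' (z, ν * t) ∈ K := hbl z (ν * t) k1 k2 k3
  show coordE b (p + y * e 0 + (σ * t : ℝ) * (Complex.I * e 0), h) ∈ K
  have e1 : coordE b (p + y * e 0 + (σ * t : ℝ) * (Complex.I * e 0), h) =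
      x + (y • u + (σ * t) • b 1) := by
    rw [hx, coordE_apply, coordE_apply, ← hb, e_zero]
    simp only [coord, Complex.add_re, Complex.add_im, Complex.ofReal_re, Complex.ofReal_im,
      Complex.mul_re, Complex.mul_im, Complex.I_re, Complex.I_im, mul_one, mul_zero, add_zero,
      sub_zero, add_smul]
    abel
  have e2 : b 1 = ⟪b' 1, b 1⟫ • b' 1 + ⟪n, b 1⟫ • n := by
    have h5 := b'.sum_repr' (b 1)
    rw [Fin.sum_univ_three, hb'0, hb'2, ← hb, hor] at h5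
    simp only [show ((0 : Fin 3) = 1) = False by simp, if_false, zero_smul, zero_add] at h5
    exact h5.symm
  have e3 : y • u + (σ * t) • b 1 = coordE b' (z, ν * t) := by
    rw [coordE_apply, hz]
    show _ = y • b' 0 + (t * μ) • b' 1 + (ν * t) • b' 2
    rw [hb'0, hb'2, hμ, hν]
    conv_lhs => rw [e2]
    rw [smul_add, smul_smul, smul_smul, add_assoc]
    congr 2
    · congr 1
      ring
    · congr 1
      ring
  rw [e1, e3]
  exact h4

/-- **Row FST.** -/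
theorem t_fst (hHLD : HLDStmt) : FSTStmt := by
  intro K u hK h1 hu hr b hb h hh
  have hKb := body3_preimage b hK
  have hS1 := sec_convex hKb h
  have hS2 := sec_compact hKb h
  have hS3 : (sec (coordE b ⁻¹' K) h).Nonempty :=
    (interior_sec_nonempty hKb hh).mono interior_subset
  obtain ⟨B₁, hB₁, α₁, hα₁, δ₁, hδ₁, k₁⟩ := blt_side hS1 hS2 hS3 1
    (fun p hp hpm => blt_tip hHLD hK h1 hu hr hb hh (Or.inl rfl) hp hpm) (Or.inl rfl)
  obtain ⟨B₂, hB₂, α₂, hα₂, δ₂, hδ₂, k₂⟩ := blt_side hS1 hS2 hS3 (-1)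
    (fun p hp hpm => blt_tip hHLD hK h1 hu hr hb hh (Or.inr rfl) hp hpm) (Or.inr rfl)
  have hB : 0 < max B₁ B₂ := lt_max_of_lt_left hB₁
  refine ⟨max B₁ B₂, hB, min α₁ α₂, lt_min hα₁ hα₂, min (min δ₁ δ₂) (max B₁ B₂),
    lt_min (lt_min hδ₁ hδ₂) hB, fun σ hσ p hp hpm y t h2 h3 => ?_⟩
  obtain ⟨v, hv⟩ : ∃ v, v = cen (sec (coordE b ⁻¹' K) h) := ⟨_, rfl⟩
  have hp' : p + v ∈ sec (coordE b ⁻¹' K) h := by rw [hv]; exact hp
  have hpm' : ∀ z ∈ sec (coordE b ⁻¹' K) h, σ * tc 0 (p + v) ≤ σ * tc 0 z := by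
    intro z hz
    have h4 := hpm (z - v) (by
      show z - v + cen (sec (coordE b ⁻¹' K) h) ∈ sec (coordE b ⁻¹' K) h
      rw [← hv, sub_add_cancel]
      exact hz)
    rw [tc_sub, mul_sub] at h4
    rw [tc_add, mul_add]
    linarith
  have key : Blt σ (sec (coordE b ⁻¹' K) h) (p + v) (max B₁ B₂) (min α₁ α₂)
      (min (min δ₁ δ₂) (max B₁ B₂)) := by
    rcases hσ with rfl | rfl
    · exact (k₁ _ hp' hpm').mono hB₁ (le_max_left B₁ B₂) (lt_min hα₁ hα₂) (min_le_left α₁ α₂)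
        ((min_le_left _ _).trans (min_le_left δ₁ δ₂)) (min_le_right (min δ₁ δ₂) _)
    · exact (k₂ _ hp' hpm').mono hB₂ (le_max_right B₁ B₂) (lt_min hα₁ hα₂) (min_le_right α₁ α₂)
        ((min_le_left _ _).trans (min_le_right δ₁ δ₂)) (min_le_right (min δ₁ δ₂) _)
  have h5 := key y t h2 h3
  show p + y * e 0 + (σ * t : ℝ) * (Complex.I * e 0) + cen (sec (coordE b ⁻¹' K) h) ∈
    sec (coordE b ⁻¹' K) h
  rw [← hv]
  have e1 : p + y * e 0 + (σ * t : ℝ) * (Complex.I * e 0) + v =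
      p + v + y * e 0 + (σ * t : ℝ) * (Complex.I * e 0) := by ring
  rw [e1]
  exact h5

end Pool.XR2
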