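import Pool.Agent.H52.XR2.S2
import Pool.Agent.H70.XR.G

/-!
# Project XR2, row NSA: almost no boundary segments
-/

set_option autoImplicit false

open MeasureTheory Set Filter Topology Metric
open scoped Real ENNReal

namespace Pool.XR2

open Pool.Agent.H45.XR

/-- Boundary segments are invariant under translations. -/
theorem noSeg_tr {C : Set ℂ} {φ : ℝ} (h : NoSeg C φ) (v : ℂ) : NoSeg (tr C v) φ := by
  intro p hp q hq hpq ht
  rw [mem_tr] at hp hq
  obtain ⟨z, hz, hz'⟩ := h _ hp _ hq (fun hc => hpq (by simpa using hc))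
    (by rw [tc_add, tc_add, ht])
  refine ⟨z - v, ?_, ?_⟩
  · rw [interior_tr, mem_tr, sub_add_cancel]
    exact hz
  · rw [tc_sub, hz', tc_add]
    ring

/-- **Row NSA.** -/
theorem t_nsa : NSAStmt := by
  intro K hK
  have h0 : ∀ φ : ℝ, volume {τ : ℝ | ∃ h ∈ Hts K, ¬ NoSeg (sec K h) (φ + Real.arctan τ)} = 0 := by
    intro φ
    have h1 : dimH {τ : ℝ | ∃ h ∈ Hts K, ¬ NoSeg (sec K h) (φ + Real.arctan τ)} <
        ((1 : NNReal) : ℝ≥0∞) := by
      refine (dimH_bad hK φ).trans_lt ?_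
      simp only [one_div]
      exact ENNReal.inv_lt_one.2 (by norm_num)
    have h2 := hausdorffMeasure_of_dimH_lt h1
    rw [← hausdorffMeasure_real]
    simpa using h2
  obtain ⟨Bd, hBd⟩ : ∃ Bd : Set ℝ, Bd = {φ : ℝ | ¬ NSH K φ} := ⟨_, rfl⟩
  have h3 : ∀ φ : ℝ, volume (Bd ∩ Ioo (φ - π / 2) (φ + π / 2)) = 0 := by
    intro φ
    have h4 : Bd ∩ Ioo (φ - π / 2) (φ + π / 2) ⊆ (fun τ : ℝ => φ + Real.arctan τ) ''
        {τ : ℝ | ∃ h ∈ Hts K, ¬ NoSeg (sec K h) (φ + Real.arctan τ)} := by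
      rintro ψ ⟨h5, h6, h7⟩
      refine ⟨Real.tan (ψ - φ), ?_, ?_⟩
      · show ∃ h ∈ Hts K, ¬ NoSeg (sec K h) (φ + Real.arctan (Real.tan (ψ - φ)))
        rw [Real.arctan_tan (by linarith) (by linarith), add_sub_cancel]
        rw [hBd] at h5
        by_contra hcon
        push Not at hcon
        exact h5 fun h hh => noSeg_tr (hcon h hh) _
      · show φ + Real.arctan (Real.tan (ψ - φ)) = ψ
        rw [Real.arctan_tan (by linarith) (by linarith), add_sub_cancel]
    refine measure_mono_null h4 ?_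
    have h8 : LipschitzWith 1 (fun τ : ℝ => φ + Real.arctan τ) := by
      have h9 : ∀ x : ℝ, HasDerivAt (fun τ : ℝ => φ + Real.arctan τ) (1 / (1 + x ^ 2)) x := by
        intro x
        have := (Real.hasDerivAt_arctan x).const_add φ
        exact this
      refine lipschitzWith_of_nnnorm_deriv_le (fun x => (h9 x).differentiableAt) fun x => ?_
      rw [(h9 x).deriv, ← NNReal.coe_le_coe]
      simp only [coe_nnnorm, NNReal.coe_one, Real.norm_eq_abs]
      rw [abs_of_nonneg (by positivity), div_le_one (by positivity)]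
      nlinarith [sq_nonneg x]
    have h10 := h8.hausdorffMeasure_image_le (d := 1) (by norm_num)
      {τ : ℝ | ∃ h ∈ Hts K, ¬ NoSeg (sec K h) (φ + Real.arctan τ)}
    rw [hausdorffMeasure_real, h0 φ, mul_zero] at h10
    exact le_antisymm h10 zero_le
  have h11 : Bd ⊆ ⋃ n : ℤ, Bd ∩ Ioo ((n : ℝ) - π / 2) ((n : ℝ) + π / 2) := by
    intro ψ hψ
    rw [mem_iUnion]
    refine ⟨round ψ, hψ, ?_⟩
    have h12 := abs_sub_round ψ
    have h13 := Real.pi_gt_three
    rw [abs_le] at h12
    constructor <;> linarith [h12.1, h12.2]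
  have h14 : volume Bd = 0 := by
    refine measure_mono_null h11 ?_
    rw [measure_iUnion_null_iff]
    exact fun n => h3 n
  rw [ae_iff]
  rw [hBd] at h14
  exact h14

end Pool.XR2
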